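import Pool.Agent.Helper54_Exc.Stmts

/-! Module INF: influence of a far particle on the coalescence of two discrepancies. -/

namespace Pool.Agent.Helper54Exc.H46

open Filter Topology Pool.Agent.Helper28Excl

/-- `x` and `y` differ exactly at `a` (where only `x` has a particle) and at `b` (where only `y`
has a particle). -/
def PM (a b : ℤ) (x y : Config) : Prop :=
  a ≠ b ∧ ∃ w : Config, w a = false ∧ w b = false ∧ x = Function.update w a true ∧
    y = Function.update w b true

lemma jmp_of_update_ne {u v τ : ℤ} (h1 : τ ≠ u) (h2 : τ ≠ v) (η : Config) (t : Bool) :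
    jmp u v (Function.update η τ t) = Function.update (jmp u v η) τ t := by
  funext z
  unfold jmp
  by_cases hz : z = τ
  · subst hz; simp [h1, h2]
  · simp [hz, Ne.symm h1, Ne.symm h2]

lemma update_self_false {w : Config} {a : ℤ} (h : w a = false) : Function.update w a false = w := by
  rw [← h, Function.update_eq_self]

lemma pm_jmp {a b u v : ℤ} {x y : Config} (h : PM a b x y) :
    jmp u v x = jmp u v y ∨ ∃ a' b', PM a' b' (jmp u v x) (jmp u v y) ∧
      (a' = a ∨ ((a = u ∨ a = v) ∧ (a' = u ∨ a' = v))) ∧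
      (b' = b ∨ ((b = u ∨ b = v) ∧ (b' = u ∨ b' = v))) := by
  obtain ⟨hab, w, wa, wb, rfl, rfl⟩ := h
  obtain ⟨a', ω1, ha', h1, h2⟩ := jmp_update u v a w
  obtain ⟨b', ω2, hb', h3, h4⟩ := jmp_update u v b w
  rw [update_self_false wa] at h2
  rw [update_self_false wb] at h4
  have e1 : Function.update ω1 a' true = Function.update (jmp u v w) a' true := by
    rw [h2, Function.update_idem]
  have e2 : Function.update ω2 b' true = Function.update (jmp u v w) b' true := by
    rw [h4, Function.update_idem]
  have e3 : jmp u v w a' = false := by rw [h2, Function.update_self]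
  have e4 : jmp u v w b' = false := by rw [h4, Function.update_self]
  by_cases hne : a' = b'
  · left
    rw [h1, h3, e1, e2, hne]
  · right
    refine ⟨a', b', ⟨hne, jmp u v w, e3, e4, ?_, ?_⟩, ha', hb'⟩
    · rw [h1, e1]
    · rw [h3, e2]

lemma tn_nonneg (ℓ : ℝ) (n : ℤ) : 0 ≤ tn ℓ n := le_max_left _ _

lemma tn_lip {ℓ : ℝ} (hℓ : 0 < ℓ) (m n : ℤ) : tn ℓ m ≤ tn ℓ n + |((m - n : ℤ) : ℝ)| / ℓ := by
  unfold tn
  have h0 : 0 ≤ |((m - n : ℤ) : ℝ)| / ℓ := by positivity
  refine max_le ?_ ?_
  · have := le_max_left (0 : ℝ) (1 - |(n : ℝ)| / ℓ)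
    linarith
  · have h1 := le_max_right (0 : ℝ) (1 - |(n : ℝ)| / ℓ)
    have h2 : |(n : ℝ)| ≤ |(m : ℝ)| + |((m - n : ℤ) : ℝ)| := by
      have : (n : ℝ) = m - ((m - n : ℤ) : ℝ) := by push_cast; ring
      rw [this]
      exact abs_sub _ _
    have h3 : |(n : ℝ)| / ℓ ≤ |(m : ℝ)| / ℓ + |((m - n : ℤ) : ℝ)| / ℓ := by
      rw [← add_div]
      exact div_le_div_of_nonneg_right h2 hℓ.le
    linarith

lemma one_le_tn {ℓ : ℝ} (n : ℤ) : 1 ≤ tn ℓ n + |(n : ℝ)| / ℓ := by
  have := le_max_right (0 : ℝ) (1 - |(n : ℝ)| / ℓ)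
  unfold tn
  linarith

/-- length of the mark if `x` is one of its ends (counted with multiplicity) -/
noncomputable def Ind (u v x : ℤ) : ℝ :=
  (if x = u then |((v - u : ℤ) : ℝ)| else 0) + (if x = v then |((v - u : ℤ) : ℝ)| else 0)

lemma Ind_nonneg (u v x : ℤ) : 0 ≤ Ind u v x := by
  unfold Ind
  have := abs_nonneg ((v - u : ℤ) : ℝ)
  split_ifs <;> linarith

lemma le_Ind {u v x : ℤ} (h : x = u ∨ x = v) : |((v - u : ℤ) : ℝ)| ≤ Ind u v x := by
  unfold Ind
  have := abs_nonneg ((v - u : ℤ) : ℝ)
  rcases h with h | h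
  · rw [if_pos h]; split_ifs <;> linarith
  · rw [if_pos h]; split_ifs <;> linarith

lemma dist_le {u v x y : ℤ} (hx : x = u ∨ x = v) (hy : y = u ∨ y = v) :
    |((x - y : ℤ) : ℝ)| ≤ |((v - u : ℤ) : ℝ)| := by
  have : |x - y| ≤ |v - u| := by
    rcases hx with hx | hx <;> rcases hy with hy | hy
    · rw [hx, hy, sub_self, abs_zero]; exact abs_nonneg _
    · rw [hx, hy, abs_sub_comm]
    · rw [hx, hy]
    · rw [hx, hy, sub_self, abs_zero]; exact abs_nonneg _
  exact_mod_cast this

lemma sum_Ind_le (k : Kern) (N : ℕ) (x : ℤ) :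
    ∑ q ∈ box N ×ˢ box N, k.p (q.2 - q.1) * Ind q.1 q.2 x ≤ 2 * mom k := by
  have h1 := sum_lip_le k N x
  have h2 := sum_lip_le' k N x
  unfold Ind
  simp only [mul_add]
  rw [Finset.sum_add_distrib]
  linarith

/-- the class of functions -/
def Cls (N : ℕ) (ℓ κ : ℝ) : Set C(Config × Config, ℝ) :=
  {F | (∀ x, F (x, x) = 0) ∧
    (∀ a ∈ box N, ∀ b ∈ box N, ∀ x y, PM a b x y → 0 ≤ F (x, y) ∧ F (x, y) ≤ 1) ∧
    (∀ a ∈ box N, ∀ b ∈ box N, ∀ τ ∈ box N, ∀ x y, PM a b x y → τ ≠ a → τ ≠ b →
      |F (Function.update x τ true, Function.update y τ true)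
        - F (Function.update x τ false, Function.update y τ false)|
        ≤ tn ℓ (τ - a) + tn ℓ (τ - b) + κ)}

lemma isClosed_Cls (N : ℕ) (ℓ κ : ℝ) : IsClosed (Cls N ℓ κ) := by
  have h : Cls N ℓ κ = {F | ∀ x, F (x, x) = 0} ∩
    ({F | ∀ a ∈ box N, ∀ b ∈ box N, ∀ x y, PM a b x y → 0 ≤ F (x, y) ∧ F (x, y) ≤ 1} ∩
    {F | ∀ a ∈ box N, ∀ b ∈ box N, ∀ τ ∈ box N, ∀ x y, PM a b x y → τ ≠ a → τ ≠ b →
      |F (Function.update x τ true, Function.update y τ true)
        - F (Function.update x τ false, Function.update y τ false)|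
        ≤ tn ℓ (τ - a) + tn ℓ (τ - b) + κ}) := rfl
  rw [h]
  refine IsClosed.inter ?_ (IsClosed.inter ?_ ?_)
  · simp only [Set.ofPred_forall]
    exact isClosed_iInter fun x => isClosed_eq (continuous_ev _) continuous_const
  · simp only [Set.ofPred_forall, Set.ofPred_and]
    exact isClosed_iInter fun a => isClosed_iInter fun _ => isClosed_iInter fun b =>
      isClosed_iInter fun _ => isClosed_iInter fun x => isClosed_iInter fun y =>
      isClosed_iInter fun _ => (isClosed_le continuous_const (continuous_ev _)).inter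
        (isClosed_le (continuous_ev _) continuous_const)
  · simp only [Set.ofPred_forall]
    exact isClosed_iInter fun a => isClosed_iInter fun _ => isClosed_iInter fun b =>
      isClosed_iInter fun _ => isClosed_iInter fun τ => isClosed_iInter fun _ =>
      isClosed_iInter fun x => isClosed_iInter fun y => isClosed_iInter fun _ =>
      isClosed_iInter fun _ => isClosed_iInter fun _ =>
      isClosed_le ((continuous_ev _).sub (continuous_ev _)).abs continuous_const

lemma box_of {N : ℕ} {a a' u v : ℤ} (hu : u ∈ box N) (hv : v ∈ box N) (ha : a ∈ box N)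
    (h : a' = a ∨ ((a = u ∨ a = v) ∧ (a' = u ∨ a' = v))) : a' ∈ box N := by
  rcases h with h | ⟨_, h | h⟩
  · rw [h]; exact ha
  · rw [h]; exact hu
  · rw [h]; exact hv

lemma Cls_T {N : ℕ} {ℓ κ : ℝ} {s : C(Config × Config, ℝ)} (hs : s ∈ Cls N ℓ κ) {u v a b : ℤ}
    (hu : u ∈ box N) (hv : v ∈ box N) (ha : a ∈ box N) (hb : b ∈ box N) {x y : Config}
    (h : PM a b x y) : 0 ≤ s (jmp u v x, jmp u v y) ∧ s (jmp u v x, jmp u v y) ≤ 1 := by
  rcases pm_jmp (u := u) (v := v) h with h | ⟨a', b', h, ha', hb'⟩
  · rw [h, hs.1]; norm_num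
  · exact hs.2.1 a' (box_of hu hv ha ha') b' (box_of hu hv hb hb') _ _ h

lemma pm_update {a b τ : ℤ} {x y : Config} (h : PM a b x y) (h1 : τ ≠ a) (h2 : τ ≠ b) (t : Bool) :
    PM a b (Function.update x τ t) (Function.update y τ t) := by
  obtain ⟨hab, w, wa, wb, rfl, rfl⟩ := h
  refine ⟨hab, Function.update w τ t, ?_, ?_, ?_, ?_⟩
  · rw [Function.update_of_ne (Ne.symm h1), wa]
  · rw [Function.update_of_ne (Ne.symm h2), wb]
  · rw [Function.update_comm h1]
  · rw [Function.update_comm h2]

lemma step_bound {N : ℕ} {ℓ κ : ℝ} (hℓ : 0 < ℓ) (hκ : 0 ≤ κ) {s : C(Config × Config, ℝ)}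
    (hs : s ∈ Cls N ℓ κ) {u v a b τ : ℤ}
    (hu : u ∈ box N) (hv : v ∈ box N) (ha : a ∈ box N) (hb : b ∈ box N) (hτ : τ ∈ box N)
    {x y : Config} (h : PM a b x y) (h1 : τ ≠ a) (h2 : τ ≠ b) :
    |s (jmp u v (Function.update x τ true), jmp u v (Function.update y τ true))
      - s (jmp u v (Function.update x τ false), jmp u v (Function.update y τ false))|
      ≤ tn ℓ (τ - a) + tn ℓ (τ - b) + κ + (2 * Ind u v τ + Ind u v a + Ind u v b) / ℓ := by
  have iτ := Ind_nonneg u v τ
  have ia := Ind_nonneg u v a
  have ib := Ind_nonneg u v b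
  have ta := tn_nonneg ℓ (τ - a)
  have tb := tn_nonneg ℓ (τ - b)
  have hsplit : (2 * Ind u v τ + Ind u v a + Ind u v b) / ℓ
      = 2 * (Ind u v τ / ℓ) + Ind u v a / ℓ + Ind u v b / ℓ := by ring
  have iτ' : 0 ≤ Ind u v τ / ℓ := by positivity
  have ia' : 0 ≤ Ind u v a / ℓ := by positivity
  have ib' : 0 ≤ Ind u v b / ℓ := by positivity
  rw [hsplit]
  by_cases hτuv : τ = u ∨ τ = v
  · by_cases hab : (a = u ∨ a = v) ∨ (b = u ∨ b = v)
    · -- the mark joins `τ` and one of the discrepancies
      have k1 := Cls_T hs hu hv ha hb (pm_update h h1 h2 true)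
      have k0 := Cls_T hs hu hv ha hb (pm_update h h1 h2 false)
      have k2 : |s (jmp u v (Function.update x τ true), jmp u v (Function.update y τ true))
          - s (jmp u v (Function.update x τ false), jmp u v (Function.update y τ false))| ≤ 1 := by
        rw [abs_le]
        constructor <;> linarith [k1.1, k1.2, k0.1, k0.2]
      refine k2.trans ?_
      have l1 := div_le_div_of_nonneg_right (le_Ind hτuv) hℓ.le
      rcases hab with hab | hab
      · have l2 := one_le_tn (ℓ := ℓ) (τ - a)
        have l3 := div_le_div_of_nonneg_right (dist_le hτuv hab) hℓ.le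
        linarith
      · have l2 := one_le_tn (ℓ := ℓ) (τ - b)
        have l3 := div_le_div_of_nonneg_right (dist_le hτuv hab) hℓ.le
        linarith
    · -- the mark moves `τ` only
      rw [not_or, not_or, not_or] at hab
      obtain ⟨⟨au, av⟩, bu, bv⟩ := hab
      obtain ⟨hne, w, wa, wb, rfl, rfl⟩ := h
      obtain ⟨τ', ω, hτ', e1, e2⟩ := jmp_update u v τ w
      have hτa : τ' ≠ a := by
        rcases hτ' with h | ⟨_, h | h⟩
        · rw [h]; exact h1
        · rw [h]; exact Ne.symm au
        · rw [h]; exact Ne.symm av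
      have hτb : τ' ≠ b := by
        rcases hτ' with h | ⟨_, h | h⟩
        · rw [h]; exact h2
        · rw [h]; exact Ne.symm bu
        · rw [h]; exact Ne.symm bv
      have wa' : ω a = false := by
        have := congrFun e2 a
        rw [Function.update_of_ne (Ne.symm hτa), jmp_of_ne _ au av,
          Function.update_of_ne (Ne.symm h1), wa] at this
        exact this.symm
      have wb' : ω b = false := by
        have := congrFun e2 b
        rw [Function.update_of_ne (Ne.symm hτb), jmp_of_ne _ bu bv,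
          Function.update_of_ne (Ne.symm h2), wb] at this
        exact this.symm
      have E : ∀ t : Bool, jmp u v (Function.update w τ t) = Function.update ω τ' t := by
        intro t
        cases t
        · exact e2
        · exact e1
      have Ea : ∀ t : Bool, jmp u v (Function.update (Function.update w a true) τ t)
          = Function.update (Function.update ω a true) τ' t := by
        intro t
        rw [Function.update_comm (Ne.symm h1), jmp_of_update_ne au av, E,
          Function.update_comm hτa]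
      have Eb : ∀ t : Bool, jmp u v (Function.update (Function.update w b true) τ t)
          = Function.update (Function.update ω b true) τ' t := by
        intro t
        rw [Function.update_comm (Ne.symm h2), jmp_of_update_ne bu bv, E,
          Function.update_comm hτb]
      rw [Ea, Ea, Eb, Eb]
      have k := hs.2.2 a ha b hb τ' (box_of hu hv hτ hτ') _ _
        ⟨hne, ω, wa', wb', rfl, rfl⟩ hτa hτb
      have m1 := tn_lip hℓ (τ' - a) (τ - a)
      have m2 := tn_lip hℓ (τ' - b) (τ - b)
      have m3 : |((τ' - τ : ℤ) : ℝ)| / ℓ ≤ Ind u v τ / ℓ := by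
        refine div_le_div_of_nonneg_right ?_ hℓ.le
        rcases hτ' with h | ⟨_, h⟩
        · rw [h]; simpa using iτ
        · exact (dist_le h hτuv).trans (le_Ind hτuv)
      have m4 : (τ' - a - (τ - a) : ℤ) = τ' - τ := by ring
      have m5 : (τ' - b - (τ - b) : ℤ) = τ' - τ := by ring
      rw [m4] at m1
      rw [m5] at m2
      linarith
  · rw [not_or] at hτuv
    obtain ⟨τu, τv⟩ := hτuv
    rw [jmp_of_update_ne τu τv, jmp_of_update_ne τu τv, jmp_of_update_ne τu τv,
      jmp_of_update_ne τu τv]
    rcases pm_jmp (u := u) (v := v) h with h | ⟨a', b', h, ha', hb'⟩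
    · rw [h, hs.1, hs.1, sub_self, abs_zero]
      positivity
    · have hτa : τ ≠ a' := by
        rcases ha' with h | ⟨_, h | h⟩
        · rw [h]; exact h1
        · rw [h]; exact τu
        · rw [h]; exact τv
      have hτb : τ ≠ b' := by
        rcases hb' with h | ⟨_, h | h⟩
        · rw [h]; exact h2
        · rw [h]; exact τu
        · rw [h]; exact τv
      have k := hs.2.2 a' (box_of hu hv ha ha') b' (box_of hu hv hb hb') τ hτ _ _ h hτa hτb
      have key : ∀ c c' : ℤ, 0 ≤ Ind u v c →
          (c' = c ∨ ((c = u ∨ c = v) ∧ (c' = u ∨ c' = v))) →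
          tn ℓ (τ - c') ≤ tn ℓ (τ - c) + Ind u v c / ℓ := by
        intro c c' hc h
        have m1 := tn_lip hℓ (τ - c') (τ - c)
        have m4 : (τ - c' - (τ - c) : ℤ) = c - c' := by ring
        rw [m4] at m1
        have m3 : |((c - c' : ℤ) : ℝ)| / ℓ ≤ Ind u v c / ℓ := by
          refine div_le_div_of_nonneg_right ?_ hℓ.le
          rcases h with h | ⟨h, h'⟩
          · rw [h]; simpa using hc
          · exact (dist_le h h').trans (le_Ind h)
        linarith
      have m1 := key a a' ia ha'
      have m2 := key b b' ib hb'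
      linarith

lemma Phi_pm {N : ℕ} {a b : ℤ} (ha : a ∈ box N) (hb : b ∈ box N) {x y : Config}
    (h : PM a b x y) : Phi N (x, y) = 1 := by
  obtain ⟨hab, w, wa, wb, rfl, rfl⟩ := h
  unfold Phi
  rw [ContinuousMap.smul_apply, smul_eq_mul, cnt_apply]
  have h1 : ∀ z ∈ box N, sd (Function.update w a true z) (Function.update w b true z)
      = (if z = a then (1 : ℝ) else 0) + (if z = b then 1 else 0) := by
    intro z _
    by_cases hz : z = a
    · subst hz
      rw [Function.update_self, Function.update_of_ne hab, wa, if_pos rfl, if_neg hab]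
      simp [sd]
    · by_cases hz' : z = b
      · subst hz'
        rw [Function.update_self, Function.update_of_ne hz, wb, if_pos rfl, if_neg hz]
        simp [sd]
      · rw [Function.update_of_ne hz, Function.update_of_ne hz', if_neg hz, if_neg hz']
        simp [sd]
  rw [Finset.sum_congr rfl h1, Finset.sum_add_distrib, Finset.sum_ite_eq', Finset.sum_ite_eq',
    if_pos ha, if_pos hb]
  norm_num

lemma Phi_diag (N : ℕ) (x : Config) : Phi N (x, x) = 0 := by
  unfold Phi
  rw [ContinuousMap.smul_apply, smul_eq_mul, cnt_apply]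
  simp [sd]

lemma V_mem_Cls (k : Kern) (N : ℕ) {s ℓ : ℝ} (hs : 0 ≤ s) (hℓ : 0 < ℓ) :
    V k N s ∈ Cls N ℓ (8 * mom k * s / ℓ) := by
  have hm := mom_nonneg k
  set κ := 8 * mom k * s / ℓ with hκdef
  have hκ : 0 ≤ κ := by positivity
  unfold V
  refine Rop_mem XX k (isClosed_Cls N ℓ κ) N hs (Phi N) ?_ ?_
  · refine ⟨fun x => rfl, fun a _ b _ x y _ => ⟨le_rfl, zero_le_one⟩, ?_⟩
    intro a _ b _ τ _ x y _ _ _
    simp only [ContinuousMap.zero_apply, sub_self, abs_zero]
    have ta := tn_nonneg ℓ (τ - a)
    have tb := tn_nonneg ℓ (τ - b)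
    linarith
  · intro F hF
    have hα := alph_pos k N hs
    have hα1 := alph_mul k N hs
    refine ⟨?_, ?_, ?_⟩
    · intro x
      simp only [ContinuousMap.smul_apply, ContinuousMap.add_apply, smul_eq_mul]
      rw [Phi_diag, Aop_apply]
      have : ∑ q ∈ box N ×ˢ box N, k.p (q.2 - q.1) * F (XX.T q.1 q.2 (x, x)) = 0 := by
        refine Finset.sum_eq_zero fun q _ => ?_
        rw [XX_T, hF.1, mul_zero]
      rw [this]; ring
    · intro a ha b hb x y h
      simp only [ContinuousMap.smul_apply, ContinuousMap.add_apply, smul_eq_mul]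
      rw [Phi_pm ha hb h, Aop_apply]
      have h1 : 0 ≤ ∑ q ∈ box N ×ˢ box N, k.p (q.2 - q.1) * F (XX.T q.1 q.2 (x, y)) := by
        refine Finset.sum_nonneg fun q hq => mul_nonneg (k.nonneg _) ?_
        rw [Finset.mem_product] at hq
        exact (Cls_T hF hq.1 hq.2 ha hb h).1
      have h2 : ∑ q ∈ box N ×ˢ box N, k.p (q.2 - q.1) * F (XX.T q.1 q.2 (x, y)) ≤ crate k N := by
        unfold crate
        refine Finset.sum_le_sum fun q hq => ?_
        rw [Finset.mem_product] at hq
        have := mul_le_mul_of_nonneg_left (Cls_T hF hq.1 hq.2 ha hb h).2 (k.nonneg (q.2 - q.1))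
        rwa [mul_one] at this
      constructor
      · positivity
      · rw [← hα1]
        exact mul_le_mul_of_nonneg_left (by nlinarith) hα.le
    · intro a ha b hb τ hτ x y h h1 h2
      simp only [ContinuousMap.smul_apply, ContinuousMap.add_apply, smul_eq_mul]
      rw [Phi_pm ha hb (pm_update h h1 h2 true), Phi_pm ha hb (pm_update h h1 h2 false),
        Aop_apply, Aop_apply]
      set A1 := ∑ q ∈ box N ×ˢ box N, k.p (q.2 - q.1) *
        F (XX.T q.1 q.2 (Function.update x τ true, Function.update y τ true)) with hA1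
      set A0 := ∑ q ∈ box N ×ˢ box N, k.p (q.2 - q.1) *
        F (XX.T q.1 q.2 (Function.update x τ false, Function.update y τ false)) with hA0
      set Y := tn ℓ (τ - a) + tn ℓ (τ - b) with hY
      have hY0 : 0 ≤ Y := add_nonneg (tn_nonneg _ _) (tn_nonneg _ _)
      have hA : |A1 - A0| ≤ crate k N * (Y + κ) + 8 * mom k / ℓ := by
        rw [hA1, hA0, ← Finset.sum_sub_distrib]
        refine (Finset.abs_sum_le_sum_abs _ _).trans ?_
        have hq : ∀ q ∈ box N ×ˢ box N,
            |k.p (q.2 - q.1) * F (XX.T q.1 q.2 (Function.update x τ true, Function.update y τ true))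
              - k.p (q.2 - q.1) *
                F (XX.T q.1 q.2 (Function.update x τ false, Function.update y τ false))|
            ≤ k.p (q.2 - q.1) * (Y + κ) + (2 * (k.p (q.2 - q.1) * Ind q.1 q.2 τ)
              + k.p (q.2 - q.1) * Ind q.1 q.2 a + k.p (q.2 - q.1) * Ind q.1 q.2 b) / ℓ := by
          intro q hq
          rw [Finset.mem_product] at hq
          rw [← mul_sub, abs_mul, abs_of_nonneg (k.nonneg _)]
          have := mul_le_mul_of_nonneg_left
            (step_bound hℓ hκ hF hq.1 hq.2 ha hb hτ h h1 h2) (k.nonneg (q.2 - q.1))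
          refine this.trans (le_of_eq ?_)
          rw [hY]
          ring
        refine (Finset.sum_le_sum hq).trans ?_
        rw [Finset.sum_add_distrib, ← Finset.sum_mul, ← Finset.sum_div, Finset.sum_add_distrib,
          Finset.sum_add_distrib, ← Finset.mul_sum]
        have s1 := sum_Ind_le k N τ
        have s2 := sum_Ind_le k N a
        have s3 := sum_Ind_le k N b
        have s4 := div_le_div_of_nonneg_right (c := ℓ) (show
          2 * ∑ q ∈ box N ×ˢ box N, k.p (q.2 - q.1) * Ind q.1 q.2 τ
          + ∑ q ∈ box N ×ˢ box N, k.p (q.2 - q.1) * Ind q.1 q.2 a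
          + ∑ q ∈ box N ×ˢ box N, k.p (q.2 - q.1) * Ind q.1 q.2 b ≤ 8 * mom k by linarith) hℓ.le
        unfold crate
        linarith
      have e : alph k N s * (1 + s * A1) - alph k N s * (1 + s * A0)
          = alph k N s * (s * (A1 - A0)) := by ring
      rw [e, abs_mul, abs_of_pos hα, abs_mul, abs_of_nonneg hs]
      have h5 : s * |A1 - A0| ≤ s * (crate k N * (Y + κ)) + κ := by
        have := mul_le_mul_of_nonneg_left hA hs
        refine this.trans (le_of_eq ?_)
        rw [hκdef]
        ring
      refine (mul_le_mul_of_nonneg_left h5 hα.le).trans ?_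
      have h6 : alph k N s * (s * (crate k N * (Y + κ)) + κ)
          ≤ alph k N s * ((1 + s * crate k N) * (Y + κ)) := by
        refine mul_le_mul_of_nonneg_left ?_ hα.le
        nlinarith
      refine h6.trans (le_of_eq ?_)
      rw [← mul_assoc, hα1, one_mul]

/-- INF -/
theorem inf_stmt : InfStmt := by
  intro k N s ℓ hs hℓ a b τ ω ha hb hτ hab hτa hτb
  have hF := V_mem_Cls k N (s := s) hs hℓ
  have e1 : Function.update (Function.update ω a true) b false
      = Function.update (Function.update (Function.update ω a false) b false) a true := by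
    funext z
    by_cases hz : z = a
    · subst hz; simp [hab]
    · by_cases hz' : z = b
      · subst hz'; simp [hz]
      · simp [hz, hz']
  have e2 : Function.update (Function.update ω a false) b true
      = Function.update (Function.update (Function.update ω a false) b false) b true := by
    rw [Function.update_idem]
  have hpm : PM a b (Function.update (Function.update ω a true) b false)
      (Function.update (Function.update ω a false) b true) := by
    refine ⟨hab, Function.update (Function.update ω a false) b false, ?_, ?_, e1, e2⟩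
    · rw [Function.update_of_ne hab, Function.update_self]
    · rw [Function.update_self]
  exact hF.2.2 a ha b hb τ hτ _ _ hpm hτa hτb

end Pool.Agent.Helper54Exc.H46
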